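import Pool.Agent.H247.SD.Top
import Pool.Agent.H247.CB.Fin
import Pool.Agent.H342.SD.SHD
import Pool.Agent.H585.SD.IN
import Pool.Agent.H370.SD.EX
import Pool.Agent.H895.SD.CC
import Pool.Agent.H894.SD.PO
import Pool.Agent.H122.SD.FC
import Pool.Agent.H385.SD.TR
import Pool.Agent.H289.SD.BA

/-!
# Spectral decomposition near the diffeomorphisms of project CB
-/

set_option autoImplicit false
set_option linter.unusedSectionVars false

open scoped Manifold ContDiff Topology
open Filter Set MeasureTheory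

universe u

namespace Pool.Agent.H247.SD

open Pool.Agent.H718R2.G Pool.Agent.K7.H85.KHS Pool.Agent.H247.CB
open Pool.Agent.R774.OS (CR isClosed_CR)
open Pool.Agent.K7.H85.KH (DE DN qform rep_form diff_md hypSet cr_eq cr_fwd cr_bwd)
open Pool.Agent.Q182.MC (ChainTo cls cls_inv finite_of_classes)
open Pool.Agent.H728R2.FA (omegaLim FiniteAttractors)

section metric

variable {n : ℕ} {N : Type u} [MetricSpace N] [CompactSpace N]
  [ChartedSpace (V n) N] [IsManifold (𝓡 n) ∞ N]

theorem spec_diff {r : ℕ∞} (hr : 1 ≤ r) (G : DiffM n N r) {d : ℕ} {e : N → V d}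
    (he : ContMDiff (𝓡 n) (𝓡 d) ∞ e) (hei : Function.Injective e)
    {B : N → V d →L[ℝ] V d →L[ℝ] ℝ} (hB : Continuous B)
    (hT : ∀ x ∈ CR (G : N → N), ∀ v : V n, v ≠ 0 →
      qform e B x v < qform e B (G x) (DN n G x v)) :
    {C | ∃ a, ChainTo (G : N → N) univ a a ∧ C = cls (G : N → N) univ a}.Finite ∧
      ∀ a, ChainTo (G : N → N) univ a a → IsClosed (cls (G : N → N) univ a) ∧
        ∃ x ∈ cls (G : N → N) univ a,
        cls (G : N → N) univ a ⊆ closure (range fun k : ℕ => G^[k] x) := by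
  have he1 : ContMDiff (𝓡 n) (𝓡 d) 1 e := he.of_le (by exact_mod_cast le_top)
  have hcl : IsClosed (CR (G : N → N)) := isClosed_CR G.continuous
  have hfwd : ∀ x ∈ CR (G : N → N), G x ∈ CR (G : N → N) := fun x hx => cr_fwd G.continuous hx
  have hbwd : ∀ x ∈ CR (G : N → N), G.symm x ∈ CR (G : N → N) := fun x hx =>
    cr_bwd G.continuous G.symm.continuous (fun y => G.symm_apply_apply y) hx
  have hSh : Sh (G : N → N) (CR (G : N → N)) :=
    Pool.Agent.H342.SD.main n N r hr G d e B _ (hypSet he1 hB hcl hfwd hT)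
  have hEx : Ex G.toHomeomorph (CR (G : N → N)) :=
    Pool.Agent.H370.SD.main N G.toHomeomorph d e he.continuous hei B hB (CR (G : N → N)) hcl
      hfwd hbwd fun x₀ hx₀ =>
        Pool.Agent.H585.SD.main n N r hr G d e he B hB x₀ (hT x₀ hx₀)
  obtain ⟨m1, m2⟩ := cr_eq hr he1 hB hT
  exact Top.spectral Pool.Agent.H895.SD.main Pool.Agent.H894.SD.main Pool.Agent.H122.SD.main
    (Pool.Agent.H385.SDTR.main Pool.Agent.H895.SD.main) Pool.Agent.H289.SD.main
    G.toHomeomorph hSh hEx (by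
      show CR (G : N → N) ⊆ _
      rw [m1]
      exact m2)

end metric

/-- There are finitely many pairwise disjoint closed invariant sets, each with a dense forward orbit,
such that every `ω`-limit set of `g` is contained in one of them. -/
def FinitelyManyClasses {X : Type u} [TopologicalSpace X] (g : X → X) : Prop :=
  ∃ S : Set (Set X), S.Finite ∧ (∀ C ∈ S, ∀ C' ∈ S, C ≠ C' → Disjoint C C') ∧
    (∀ C ∈ S, IsClosed C ∧ g '' C = C ∧ ∃ x ∈ C, C ⊆ closure (range fun k : ℕ => g^[k] x)) ∧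
    ∀ p, ∃ C ∈ S, omegaLim g p ⊆ C

/-- `g` has finitely many attractors covering the space, for every measure. -/
def FinitelyManyAttractors {X : Type u} [TopologicalSpace X] (g : X → X) : Prop :=
  ∀ (_ : MeasurableSpace X) (μ : Measure X), FiniteAttractors μ g

theorem concl {X : Type u} [MetricSpace X] [CompactSpace X] (G : X ≃ₜ X)
    (h : {C | ∃ a, ChainTo (G : X → X) univ a a ∧ C = cls (G : X → X) univ a}.Finite ∧
      ∀ a, ChainTo (G : X → X) univ a a → IsClosed (cls (G : X → X) univ a) ∧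
        ∃ x ∈ cls (G : X → X) univ a,
        cls (G : X → X) univ a ⊆ closure (range fun k : ℕ => G^[k] x)) :
    FinitelyManyClasses (G : X → X) ∧ FinitelyManyAttractors (G : X → X) := by
  have key := fun (_ : MeasurableSpace X) (μ : Measure X) =>
    finite_of_classes (K := univ) μ G (fun _ _ => mem_univ _) (fun _ _ => mem_univ _)
      (fun _ => subset_univ _) h.1 (fun a ha => (h.2 a ha).2)
  refine ⟨⟨{C | ∃ a, ChainTo (G : X → X) univ a a ∧ C = cls (G : X → X) univ a}, h.1, ?_, ?_, ?_⟩,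
    fun i μ => (key i μ).2⟩
  · rintro C ⟨a, ha, rfl⟩ C' ⟨a', ha', rfl⟩ hne
    rw [Set.disjoint_left]
    intro x hx hx'
    apply hne
    ext y
    exact ⟨fun hy => ⟨hx'.1.trans (hx.2.trans hy.1), hy.2.trans (hx.1.trans hx'.2)⟩,
      fun hy => ⟨hx.1.trans (hx'.2.trans hy.1), hy.2.trans (hx'.1.trans hx.2)⟩⟩
  · rintro C ⟨a, ha, rfl⟩
    exact ⟨(h.2 a ha).1, cls_inv G (fun _ _ => mem_univ _) (fun _ _ => mem_univ _) a,
      (h.2 a ha).2⟩
  · intro p
    obtain ⟨a, ha, h1⟩ := (key (borel X) 0).1 p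
    exact ⟨_, ⟨a, ha, rfl⟩, h1⟩

theorem final {n : ℕ} {N : Type u} [TopologicalSpace N] [ChartedSpace (V n) N] [T2Space N]
    [CompactSpace N] [IsManifold (𝓡 n) ∞ N] {r : ℕ∞}
    (hr : 1 ≤ r) (F : DiffM n N r) (E : Set N) (H : HyperbolicUpTo F E) :
    ∃ U W : Set (DiffM n N r), IsOpen[strongTop n N r] U ∧ F ∈ U ∧ IsOpen[strongTop n N r] W ∧
      W ⊆ U ∧ (∀ U' ⊆ U, IsOpen[strongTop n N r] U' → U'.Nonempty → (U' ∩ W).Nonempty) ∧
      ∀ G ∈ W, FinitelyManyClasses (G : N → N) ∧ FinitelyManyAttractors (G : N → N) := by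
  have : SecondCountableTopology N := ChartedSpace.secondCountable_of_sigmaCompact (V n) N
  let _ : MetricSpace N := TopologicalSpace.metrizableSpaceMetric N
  obtain ⟨d, e, he, he', hinj'⟩ := exists_embedding_euclidean_of_compact (I := 𝓡 n) (M := N)
  have hinj : ∀ x, Function.Injective (DE n e x) := fun x => hinj' x
  have he1 : ContMDiff (𝓡 n) (𝓡 d) 1 e := he.of_le (by exact_mod_cast le_top)
  obtain ⟨Q, hQ, hI⟩ := H.form
  obtain ⟨m, e₀, B₀, he₀, hB₀, hq⟩ := (form_iff Q).1 hQ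
  obtain ⟨B, hB, hBe⟩ := rep_form he1 hinj he₀ hB₀
  have hq2 : ∀ x v, qform e B x v = Q x v := fun x v => (hBe x v v).trans (hq x v).symm
  obtain ⟨U, W, h1, h2, h3, h4, h5, h6⟩ := Main.main_form
    (Pool.Agent.H484.CB.LOC.main Pool.Agent.H407.CB.LA.main Pool.Agent.H457.CB.CN.main)
    Pool.Agent.H189.CB.main (Pool.Agent.H984.CB.SEP.main Top.usc) Pool.Agent.H105.CBIT.main
    Top.usc Pool.Agent.H747.CBPI.main (Pool.Agent.H353.CB.main Pool.Agent.H179.CB.QF.main)
    Pool.Agent.Y504.CO.DicF.hCI Pool.Agent.Y504.CO.DicF.hNB Pool.Agent.Y504.CO.DicF.hHD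
    hr F he hinj hB H.closed H.disconnected H.invariant H.rest
    (fun x hx v hv => by
      rw [hq2, hq2]
      have h1 := hI x hx.1 hx.2 v hv
      rw [dN_eq (diff_md hr F x)] at h1
      exact h1)
    (fun x hx => by
      obtain ⟨m, hm, hxm, hA⟩ := H.periodic x hx
      exact ⟨m, hm, hxm, chartAt (V n) x, IsManifold.chart_mem_maximalAtlas (I := 𝓡 n) (n := ∞) x,
        mem_chart_source (V n) x, hA⟩)
  refine ⟨U, W, h1, h2, h3, h4, h5, fun G hG => ?_⟩
  obtain ⟨B', hB', hT⟩ := h6 G hG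
  exact concl G.toHomeomorph (spec_diff hr G he he'.injective hB' hT)

end Pool.Agent.H247.SD
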