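import Pool.Graph.R_pool_sql_team_seeded_35f281b4.K7.H85.KH.Close
import Pool.Graph.R_pool_sql_team_seeded_2aa45f1a.Q182.MC1

/-!
# Spectral decomposition of hyperbolic chain recurrent sets: statements of the parts
-/

set_option autoImplicit false

open scoped Manifold ContDiff Topology
open Filter Set Metric

universe u

namespace Pool.Agent.H247.SD

open Pool.Agent.H718R2.G Pool.Agent.TH80.OMS
open Pool.Agent.R774.OS (CR)
open Pool.Agent.R774.ClStmt (HypSet)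
open Pool.Agent.K7.H85.KH (DN DE qform)
open Pool.Agent.Q182.MC (ChainTo cls)

/-- Closed pseudo-orbits in `K` are shadowed by periodic orbits. -/
def Sh {X : Type u} [MetricSpace X] (G : X → X) (K : Set X) : Prop :=
  ∀ ε : ℝ, 0 < ε → ∃ δ : ℝ, 0 < δ ∧ ∀ (p : ℕ) (x : ℕ → X), 1 ≤ p → (∀ j, x (j + p) = x j) →
    (∀ j, x j ∈ K) → (∀ j, dist (G (x j)) (x (j + 1)) < δ) →
    ∃ y, G^[p] y = y ∧ ∀ j, dist (G^[j] y) (x j) < ε

/-- Orbits which stay close to an orbit in `K` are equal to it. -/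
def Ex {X : Type u} [MetricSpace X] (G : X ≃ₜ X) (K : Set X) : Prop :=
  ∃ ε₀ : ℝ, 0 < ε₀ ∧ ∀ x ∈ K, ∀ y, (∀ i : ℕ, dist (G^[i] x) (G^[i] y) ≤ ε₀ ∧
    dist (G.symm^[i] x) (G.symm^[i] y) ≤ ε₀) → x = y

/-- SHD: shadowing from the closing lemma `Pool.Agent.R774.Cl.closing`. -/
def S_SHD : Prop :=
  ∀ (n : ℕ) (N : Type u) [MetricSpace N] [CompactSpace N] [ChartedSpace (V n) N]
    [IsManifold (𝓡 n) ∞ N] (r : ℕ∞), 1 ≤ r → ∀ (G : DiffM n N r) (m : ℕ) (e : N → V m)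
    (B : N → V m →L[ℝ] V m →L[ℝ] ℝ) (K : Set N),
    HypSet (n := n) G (fun (_ : V 0) y => y) K e B → Sh (G : N → N) K

/-- IN: the increment of the form on differences of points. -/
def S_IN : Prop :=
  ∀ (n : ℕ) (N : Type u) [TopologicalSpace N] [T2Space N] [CompactSpace N] [ChartedSpace (V n) N]
    [IsManifold (𝓡 n) ∞ N] (r : ℕ∞), 1 ≤ r → ∀ (G : DiffM n N r) (d : ℕ) (e : N → V d),
    ContMDiff (𝓡 n) (𝓡 d) ∞ e → ∀ B : N → V d →L[ℝ] V d →L[ℝ] ℝ, Continuous B → ∀ x₀ : N,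
    (∀ v : V n, v ≠ 0 → qform e B x₀ v < qform e B (G x₀) (DN n G x₀ v)) →
    ∃ W ∈ 𝓝 x₀, ∃ c : ℝ, 0 < c ∧ ∀ x ∈ W, ∀ y ∈ W, c * ‖e y - e x‖ ^ 2 ≤
      B (G x) (e (G y) - e (G x)) (e (G y) - e (G x)) - B x (e y - e x) (e y - e x)

/-- EX: expansivity. -/
def S_EX : Prop :=
  ∀ (X : Type u) [MetricSpace X] [CompactSpace X] (G : X ≃ₜ X) (d : ℕ) (e : X → V d),
    Continuous e → Function.Injective e → ∀ B : X → V d →L[ℝ] V d →L[ℝ] ℝ, Continuous B →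
    ∀ K : Set X, IsClosed K → (∀ x ∈ K, G x ∈ K) → (∀ x ∈ K, G.symm x ∈ K) →
    (∀ x₀ ∈ K, ∃ W ∈ 𝓝 x₀, ∃ c : ℝ, 0 < c ∧ ∀ x ∈ W, ∀ y ∈ W, c * ‖e y - e x‖ ^ 2 ≤
      B (G x) (e (G y) - e (G x)) (e (G y) - e (G x)) - B x (e y - e x) (e y - e x)) → Ex G K

/-- CC: chains between chain equivalent points can be taken in the chain recurrent set. -/
def S_CC : Prop :=
  ∀ (X : Type u) [MetricSpace X] [CompactSpace X] (G : X ≃ₜ X) (a b : X),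
    b ∈ cls (G : X → X) univ a → ∀ δ : ℝ, 0 < δ → ∃ (p : ℕ) (x : ℕ → X) (k : ℕ), 1 ≤ p ∧
      (∀ j, x (j + p) = x j) ∧ (∀ j, x j ∈ CR (G : X → X)) ∧
      (∀ j, dist (G (x j)) (x (j + 1)) < δ) ∧ x 0 = a ∧ x k = b

/-- PO: close periodic points are chain equivalent. -/
def S_PO : Prop :=
  ∀ (X : Type u) [MetricSpace X] [CompactSpace X] (G : X ≃ₜ X), Sh (G : X → X) (CR (G : X → X)) →
    Ex G (CR (G : X → X)) → ∃ δ : ℝ, 0 < δ ∧ ∀ p q : X, (∃ k : ℕ, 1 ≤ k ∧ G^[k] p = p) →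
      (∃ k : ℕ, 1 ≤ k ∧ G^[k] q = q) → dist p q < δ → q ∈ cls (G : X → X) univ p

/-- FC: the chain classes are open in the chain recurrent set, and there are finitely many. -/
def S_FC : Prop :=
  ∀ (X : Type u) [MetricSpace X] [CompactSpace X] (G : X ≃ₜ X),
    (∃ δ : ℝ, 0 < δ ∧ ∀ p q : X, (∃ k : ℕ, 1 ≤ k ∧ G^[k] p = p) →
      (∃ k : ℕ, 1 ≤ k ∧ G^[k] q = q) → dist p q < δ → q ∈ cls (G : X → X) univ p) →
    CR (G : X → X) ⊆ closure {p | ∃ k : ℕ, 1 ≤ k ∧ G^[k] p = p} →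
    (∃ η : ℝ, 0 < η ∧ ∀ a ∈ CR (G : X → X), ∀ c ∈ CR (G : X → X), dist a c < η →
      c ∈ cls (G : X → X) univ a) ∧
    {C | ∃ a, ChainTo (G : X → X) univ a a ∧ C = cls (G : X → X) univ a}.Finite

/-- TR: orbits from near `a` to near `b` in the chain class of `a` and `b`. -/
def S_TR : Prop :=
  ∀ (X : Type u) [MetricSpace X] [CompactSpace X] (G : X ≃ₜ X), Sh (G : X → X) (CR (G : X → X)) →
    (∃ η : ℝ, 0 < η ∧ ∀ a ∈ CR (G : X → X), ∀ c ∈ CR (G : X → X), dist a c < η →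
      c ∈ cls (G : X → X) univ a) → ∀ a b : X, b ∈ cls (G : X → X) univ a → ∀ ε : ℝ, 0 < ε →
    ∃ z ∈ cls (G : X → X) univ a, ∃ k : ℕ, dist z a < ε ∧ dist (G^[k] z) b < ε

/-- BA: a dense orbit from the Baire category theorem. -/
def S_BA : Prop :=
  ∀ (X : Type u) [MetricSpace X] [CompactSpace X] (G : X → X), Continuous G → ∀ C : Set X,
    IsClosed C → C.Nonempty → (∀ x ∈ C, G x ∈ C) →
    (∀ a ∈ C, ∀ b ∈ C, ∀ ε : ℝ, 0 < ε → ∃ z ∈ C, ∃ k : ℕ, dist z a < ε ∧ dist (G^[k] z) b < ε) →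
    ∃ x ∈ C, C ⊆ closure (range fun k : ℕ => G^[k] x)

end Pool.Agent.H247.SD
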