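import Pool.Agent.H247.SD.Stm

/-!
# Spectral decomposition: the parts put together
-/

set_option autoImplicit false

open Filter Set Metric Topology MeasureTheory

universe u

namespace Pool.Agent.H247.SD.Top

open Pool.Agent.H247.SD
open Pool.Agent.R774.OS (CR isClosed_CR mem_CR)
open Pool.Agent.Q182.MC (ChainTo cls chainTo_iff cls_inv finite_of_classes)
open Pool.Agent.H728R2.FA (omegaLim FiniteAttractors)

section

variable {X : Type u} [MetricSpace X] [CompactSpace X]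

/-- the image of a chain class -/
theorem cls_fwd (G : X ≃ₜ X) {a x : X} (hx : x ∈ cls (G : X → X) univ a) :
    G x ∈ cls (G : X → X) univ a := by
  rw [← cls_inv G (fun _ _ => mem_univ _) (fun _ _ => mem_univ _) a]
  exact ⟨x, hx, rfl⟩

theorem spectral (hCC : S_CC.{u}) (hPO : S_PO.{u}) (hFC : S_FC.{u})
    (hTR : S_TR.{u}) (hBA : S_BA.{u}) (G : X ≃ₜ X)
    (hSh : Sh (G : X → X) (CR (G : X → X))) (hEx : Ex G (CR (G : X → X)))
    (hper : CR (G : X → X) ⊆ closure {p | ∃ k : ℕ, 1 ≤ k ∧ G^[k] p = p}) :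
    {C | ∃ a, ChainTo (G : X → X) univ a a ∧ C = cls (G : X → X) univ a}.Finite ∧
      ∀ a, ChainTo (G : X → X) univ a a → IsClosed (cls (G : X → X) univ a) ∧
        ∃ x ∈ cls (G : X → X) univ a,
        cls (G : X → X) univ a ⊆ closure (range fun k : ℕ => G^[k] x) := by
  obtain ⟨⟨η, hη, h1⟩, h2⟩ := hFC X G (hPO X G hSh hEx) hper
  refine ⟨h2, fun a ha => ?_⟩
  have hsub : cls (G : X → X) univ a ⊆ CR (G : X → X) := by
    intro c hc
    obtain ⟨p, x, k, -, -, h3, -, h4, -⟩ := hCC X G c c ⟨hc.2.trans hc.1, hc.2.trans hc.1⟩ 1 one_pos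
    rw [← h4]
    exact h3 0
  have hcl : IsClosed (cls (G : X → X) univ a) := by
    refine isClosed_of_closure_subset fun c hc => ?_
    have hcC : c ∈ CR (G : X → X) := (isClosed_CR G.continuous).closure_subset_iff.2 hsub hc
    obtain ⟨b, hb, hcb⟩ := Metric.mem_closure_iff.1 hc η hη
    have h3 := h1 b (hsub hb) c hcC (by rwa [dist_comm])
    exact ⟨hb.1.trans h3.1, h3.2.trans hb.2⟩
  refine ⟨hcl, hBA X (G : X → X) G.continuous (cls (G : X → X) univ a) hcl ⟨a, ha, ha⟩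
    (fun x hx => cls_fwd G hx) fun b hb c hc ε hε => ?_⟩
  obtain ⟨z, hz, k, h3, h4⟩ := hTR X G hSh ⟨η, hη, h1⟩ b c
    ⟨hb.2.trans hc.1, hc.2.trans hb.1⟩ ε hε
  exact ⟨z, ⟨hb.1.trans hz.1, hz.2.trans hb.2⟩, k, h3, h4⟩

end

end Pool.Agent.H247.SD.Top
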